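import Pool.Agent.NH51.Bi.Final

/-!
# The Hasse principle holds for 100% of the hypersurfaces of bidegree `(d, e)` in `P^n × P^m`
over `F_q(t)`, whenever `n ≥ 3` and `2 ≤ d ≤ n`
-/

namespace Pool.Agent.Results.MP_d4938b_nt.RandomBidegreeFunctionField

open Polynomial IsDedekindDomain

/-- The forms of bidegree `(d, e)` in the variables `x_0, ..., x_n` and `y_0, ..., y_m` over `F[t]`
all of whose coefficients have degree less than `A`: forms of degree `d` in `x` whose coefficients
are forms of degree `e` in `y` with coefficients in `F[t]` of degree less than `A`. -/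
def BiForms (F : Type*) [Field F] (n m d e A : ℕ) :
    Set (MvPolynomial (Fin (n + 1)) (MvPolynomial (Fin (m + 1)) F[X])) :=
  {f | f.IsHomogeneous d ∧
    ∀ μ, (f.coeff μ).IsHomogeneous e ∧ ∀ ν, ((f.coeff μ).coeff ν).degree < A}

/-- The value `f(x, y)` at a point with coordinates in a ring `K` to which `F[t]` is mapped
by `φ`. -/
noncomputable def value {F : Type*} [Field F] {n m : ℕ} {K : Type*} [CommRing K] (φ : F[X] →+* K)
    (x : Fin (n + 1) → K) (y : Fin (m + 1) → K)
    (f : MvPolynomial (Fin (n + 1)) (MvPolynomial (Fin (m + 1)) F[X])) : K :=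
  MvPolynomial.eval₂ (MvPolynomial.eval₂Hom φ y) x f

/-- The hypersurface `f = 0` in `P^n × P^m` has a point over the rational function
field `F(t)`. -/
def HasGlobalPoint {F : Type*} [Field F] {n m : ℕ}
    (f : MvPolynomial (Fin (n + 1)) (MvPolynomial (Fin (m + 1)) F[X])) : Prop :=
  ∃ (x : Fin (n + 1) → RatFunc F) (y : Fin (m + 1) → RatFunc F), x ≠ 0 ∧ y ≠ 0 ∧
    value (algebraMap F[X] (RatFunc F)) x y f = 0

/-- The embedding of `F[t]` in the completion `F((u))`, `u = 1 / t`, of `F(t)` at infinity: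
`t` goes to the inverse of `u`. -/
noncomputable def toInfty (F : Type*) [Field F] : F[X] →+* LaurentSeries F :=
  (Polynomial.aeval (HahnSeries.single (-1 : ℤ) (1 : F)) : F[X] →ₐ[F] LaurentSeries F).toRingHom

/-- The hypersurface `f = 0` in `P^n × P^m` has a point over the completion of `F(t)` at every
place: at every maximal ideal `v` of `F[t]`, and at infinity. -/
def HasLocalPoints {F : Type*} [Field F] {n m : ℕ}
    (f : MvPolynomial (Fin (n + 1)) (MvPolynomial (Fin (m + 1)) F[X])) : Prop :=
  (∀ v : HeightOneSpectrum F[X],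
    ∃ (x : Fin (n + 1) → v.adicCompletion (RatFunc F))
      (y : Fin (m + 1) → v.adicCompletion (RatFunc F)), x ≠ 0 ∧ y ≠ 0 ∧
      value (algebraMap F[X] (v.adicCompletion (RatFunc F))) x y f = 0) ∧
  ∃ (x : Fin (n + 1) → LaurentSeries F) (y : Fin (m + 1) → LaurentSeries F), x ≠ 0 ∧ y ≠ 0 ∧
    value (toInfty F) x y f = 0

/-- For every finite field `F`, all `n ≥ 3`, `2 ≤ d ≤ n`, `m ≥ 0` and `e ≥ 1`: among the forms
of bidegree `(d, e)` with coefficients of degree `< A`, the number of those whose hypersurface in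
`P^n × P^m` has a point over `F(t)`, divided by the number of those whose hypersurface has points
over all completions of `F(t)`, tends to `1` as `A` grows. -/
theorem result (F : Type*) [Field F] [Finite F] (n m d e : ℕ) (hn : 3 ≤ n) (hd : 2 ≤ d)
    (hdn : d ≤ n) (he : 1 ≤ e) :
    Filter.Tendsto (fun A : ℕ =>
      (({f ∈ BiForms F n m d e A | HasGlobalPoint f} : Set _).ncard : ℝ) /
      (({f ∈ BiForms F n m d e A | HasLocalPoints f} : Set _).ncard : ℝ))
      Filter.atTop (nhds 1) := by
  obtain ⟨a, rfl⟩ : ∃ a, d = a + 2 := ⟨d - 2, by omega⟩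
  obtain ⟨k, rfl⟩ : ∃ k, e = k + 1 := ⟨e - 1, by omega⟩
  exact Pool.Agent.NH51.Bi.main_tendsto2 (F := F) (ι := Fin (n + 1)) (κ := Fin (m + 1)) a k
      (by rw [Fintype.card_fin]; omega) (by rw [Fintype.card_fin]; omega) ⟨0⟩

end Pool.Agent.Results.MP_d4938b_nt.RandomBidegreeFunctionField
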