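import Pool.Agent.NH51.Cov.Final

/-!
# The Hasse principle holds for 100% of the Fano cyclic covers `w ^ k = f(x_0, ..., x_n)` of
projective space over `F_q(t)`, whenever `n ≥ 3` and `k` is prime to the characteristic
-/

namespace Pool.Agent.Results.MP_d4938b_nt.RandomCyclicCoverFunctionField

open Polynomial IsDedekindDomain

/-- The forms of degree `d` in the variables `x_0, ..., x_n` over `F[t]` all of whose coefficients
have degree less than `A`. -/
def Forms (F : Type*) [Field F] (n d A : ℕ) : Set (MvPolynomial (Fin (n + 1)) F[X]) :=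
  {f | f.IsHomogeneous d ∧ ∀ μ, (f.coeff μ).degree < A}

/-- The variety `w ^ k = f(x_0, ..., x_n)` (for a form `f` of degree `k e`: the hypersurface in the
weighted projective space with the coordinates `x_0, ..., x_n` of weight `1` and `w` of weight `e`,
the cyclic cover of degree `k` of `P^n` branched along `f = 0`) has a point with coordinates in a
ring `K` to which `F[t]` is mapped by `φ`. -/
def HasPoint {F : Type*} [Field F] {n : ℕ} {K : Type*} [CommRing K] (φ : F[X] →+* K) (k : ℕ)
    (f : MvPolynomial (Fin (n + 1)) F[X]) : Prop :=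
  ∃ (x : Fin (n + 1) → K) (w : K), x ≠ 0 ∧ w ^ k = MvPolynomial.eval₂ φ x f

/-- The variety `w ^ k = f(x)` has a point over the rational function field `F(t)`. -/
def HasGlobalPoint {F : Type*} [Field F] {n : ℕ} (k : ℕ)
    (f : MvPolynomial (Fin (n + 1)) F[X]) : Prop :=
  HasPoint (algebraMap F[X] (RatFunc F)) k f

/-- The embedding of `F[t]` in the completion `F((u))`, `u = 1 / t`, of `F(t)` at infinity:
`t` goes to the inverse of `u`. -/
noncomputable def toInfty (F : Type*) [Field F] : F[X] →+* LaurentSeries F :=
  (Polynomial.aeval (HahnSeries.single (-1 : ℤ) (1 : F)) : F[X] →ₐ[F] LaurentSeries F).toRingHom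

/-- The variety `w ^ k = f(x)` has a point over the completion of `F(t)` at every place: at every
maximal ideal `v` of `F[t]`, and at infinity. -/
def HasLocalPoints {F : Type*} [Field F] {n : ℕ} (k : ℕ)
    (f : MvPolynomial (Fin (n + 1)) F[X]) : Prop :=
  (∀ v : HeightOneSpectrum F[X],
    HasPoint (algebraMap F[X] (v.adicCompletion (RatFunc F))) k f) ∧
  HasPoint (toInfty F) k f

/-- For every finite field `F`, all `n ≥ 3`, all `k ≥ 2` prime to the characteristic and all
`e ≥ 1` with `(k - 1) e ≤ n`: among the forms of degree `k e` in `x_0, ..., x_n` over `F[t]` with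
coefficients of degree `< A`, the number of those for which the cyclic cover `w ^ k = f(x)` of
`P^n` has a point over `F(t)`, divided by the number of those for which it has points over all
completions of `F(t)`, tends to `1` as `A` grows. -/
theorem result (F : Type*) [Field F] [Finite F] (n k e : ℕ) (hn : 3 ≤ n) (hk : 2 ≤ k)
    (hkF : (k : F) ≠ 0) (he : 1 ≤ e) (hFano : (k - 1) * e ≤ n) :
    Filter.Tendsto (fun A : ℕ =>
      (({f ∈ Forms F n (k * e) A | HasGlobalPoint k f} : Set _).ncard : ℝ) /
      (({f ∈ Forms F n (k * e) A | HasLocalPoints k f} : Set _).ncard : ℝ))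
      Filter.atTop (nhds 1) := by
  obtain ⟨c, rfl⟩ : ∃ c, k = c + 1 := ⟨k - 1, by omega⟩
  have h2 : 2 ≤ (c + 1) * e := by
    calc 2 ≤ (c + 1) * 1 := by omega
      _ ≤ (c + 1) * e := Nat.mul_le_mul_left _ he
  obtain ⟨a, ha⟩ : ∃ a, (c + 1) * e = a + 2 := ⟨(c + 1) * e - 2, by omega⟩
  rw [ha]
  exact Pool.Agent.NH51.Cov.main_tendsto3 (F := F) (ι := Fin (n + 1)) c a e ha.symm hkF
      (by rw [Fintype.card_fin]; rw [Nat.add_sub_cancel] at hFano; omega)
      (by rw [Fintype.card_fin]; omega)

end Pool.Agent.Results.MP_d4938b_nt.RandomCyclicCoverFunctionField
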