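import Pool.Agent.NH51.Nf.Final

/-!
# The Hasse principle holds for 100% of the norm equations `N(w) = f(x_0, ..., x_n)` over
`F_q(t)` for a constant extension, for all `n ≥ 1` (generalised Châtelet varieties)
-/

namespace Pool.Agent.Results.MP_d4938b_nt.RandomNormFibrationFunctionField

open Polynomial IsDedekindDomain Module
open scoped TensorProduct

/-- The forms of degree `d` in the variables `x_0, ..., x_n` over `F[t]` all of whose coefficients
have degree less than `A`. -/
def Forms (F : Type*) [Field F] (n d A : ℕ) : Set (MvPolynomial (Fin (n + 1)) F[X]) :=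
  {f | f.IsHomogeneous d ∧ ∀ μ, (f.coeff μ).degree < A}

/-- The variety `N_{E/F}(w) = f(x_0, ..., x_n)`, for an extension `E / F` of fields and a form `f`
over `F[t]`, has a point over a ring `K` to which `F[t]` is mapped by `φ`: there are a nonzero
vector `x` over `K` and an element `w` of `K ⊗ E` whose norm over `K` is `f(x)`. -/
def HasPoint {F : Type*} [Field F] {n : ℕ} {K : Type*} [CommRing K] (φ : F[X] →+* K)
    (E : Type*) [Field E] [Algebra F E] (f : MvPolynomial (Fin (n + 1)) F[X]) : Prop :=
  letI : Algebra F K := (φ.comp C).toAlgebra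
  ∃ (x : Fin (n + 1) → K) (w : K ⊗[F] E), x ≠ 0 ∧
    Algebra.norm K w = MvPolynomial.eval₂ φ x f

/-- The variety `N(w) = f(x)` has a point over the rational function field `F(t)`. -/
def HasGlobalPoint {F : Type*} [Field F] {n : ℕ} (E : Type*) [Field E] [Algebra F E]
    (f : MvPolynomial (Fin (n + 1)) F[X]) : Prop :=
  HasPoint (algebraMap F[X] (RatFunc F)) E f

/-- The embedding of `F[t]` in the completion `F((u))`, `u = 1 / t`, of `F(t)` at infinity:
`t` goes to the inverse of `u`. -/
noncomputable def toInfty (F : Type*) [Field F] : F[X] →+* LaurentSeries F :=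
  (Polynomial.aeval (HahnSeries.single (-1 : ℤ) (1 : F)) : F[X] →ₐ[F] LaurentSeries F).toRingHom

/-- The variety `N(w) = f(x)` has a point over the completion of `F(t)` at every place: at every
maximal ideal `v` of `F[t]`, and at infinity. -/
def HasLocalPoints {F : Type*} [Field F] {n : ℕ} (E : Type*) [Field E] [Algebra F E]
    (f : MvPolynomial (Fin (n + 1)) F[X]) : Prop :=
  (∀ v : HeightOneSpectrum F[X],
    HasPoint (algebraMap F[X] (v.adicCompletion (RatFunc F))) E f) ∧
  HasPoint (toInfty F) E f

/-- For every extension `E / F` of finite fields of degree `k ≥ 2`, all `n ≥ 1` and all `e ≥ 1`: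
among the forms of degree `k e` in `x_0, ..., x_n` over `F[t]` with coefficients of degree `< A`,
the number of those for which `N_{E/F}(w) = f(x)` has a point over `F(t)`, divided by the number
of those for which it has points over all completions of `F(t)`, tends to `1` as `A` grows. -/
theorem result (F E : Type*) [Field F] [Finite F] [Field E] [Finite E] [Algebra F E]
    (n e : ℕ) (hn : 1 ≤ n) (hE : 2 ≤ finrank F E) (he : 1 ≤ e) :
    Filter.Tendsto (fun A : ℕ =>
      (({f ∈ Forms F n (finrank F E * e) A | HasGlobalPoint E f} : Set _).ncard : ℝ) /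
      (({f ∈ Forms F n (finrank F E * e) A | HasLocalPoints E f} : Set _).ncard : ℝ))
      Filter.atTop (nhds 1) := by
  have h2 : 2 ≤ finrank F E * e := by
    calc 2 ≤ finrank F E * 1 := by omega
      _ ≤ finrank F E * e := Nat.mul_le_mul_left _ he
  obtain ⟨a, ha⟩ : ∃ a, finrank F E * e = a + 2 := ⟨finrank F E * e - 2, by omega⟩
  rw [ha]
  exact Pool.Agent.NH51.Nf.main_tendsto4 (F := F) (E := E) (ι := Fin (n + 1)) a e ha.symm
      (by rw [Fintype.card_fin]; omega)

end Pool.Agent.Results.MP_d4938b_nt.RandomNormFibrationFunctionField
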